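import Pool.Agent.R82.DC.Inst

/-!
# Weighted backward shifts with an exact distributional chaos exponent

For every `λ ∈ (0, 1]` there is a weighted backward shift on `ℓ^p` (`1 ≤ p < ∞`) and on `c₀`, over the
real or the complex numbers, which is densely `λ`-distributionally chaotic and not
`μ`-distributionally chaotic for every `0 < μ < λ`.

The weights are `exp (L n - L (n - 1))` with an almost periodic subadditive function
`L = ∑ min (H_n, s_n dist (k, z_(n+1) ℤ))`.  The set where `L ≤ 1` has at least `R ^ μ / 4 - 1` elements in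
`[1, R]` for every `μ < λ`, and on this set the powers of the shift are bounded; the complement of
the set where `L` is large has very few elements in `[1, z_n]`.

Definitions: `cnt`, `ldens` (file `Pool/Agent/R82/DC/Dens.lean`), `IsShift`, `Scrambled`, `DistChaotic`,
`DenselyDistChaotic` (file `Pool/Agent/R82/DC/Space.lean`), `c0e` (file `Pool/Agent/R82/DC/Inst.lean`).
The paper proof is due to helper286.
-/

set_option autoImplicit false

namespace Pool.Agent.Results.MP_39b2af_an.ChaosExponent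

open Pool.Agent.R82.DC
open scoped ENNReal ZeroAtInfty

/-- Full answer to Q1: weighted backward shifts with an exact distributional chaos exponent exist on
all the spaces of the question and for all `λ ∈ (0, 1]`. -/
theorem result (𝕂 : Type) [RCLike 𝕂] (lam : ℝ) (h0 : 0 < lam) (h1 : lam ≤ 1) :
    (∀ (p : ℝ≥0∞) [Fact (1 ≤ p)], p ≠ ⊤ →
      ∃ (ω : ℕ → ℝ) (T : lp (fun _ : ℕ => 𝕂) p →L[𝕂] lp (fun _ : ℕ => 𝕂) p),
        (∀ n, 0 < ω n) ∧ (∃ C, ∀ n, ω n ≤ C) ∧
        IsShift (fun n => lp.single p n (1 : 𝕂)) ω T ∧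
        DenselyDistChaotic lam T ∧ ∀ mu, 0 < mu → mu < lam → ¬ DistChaotic mu T) ∧
    (∃ (ω : ℕ → ℝ) (T : C₀(ℕ, 𝕂) →L[𝕂] C₀(ℕ, 𝕂)),
        (∀ n, 0 < ω n) ∧ (∃ C, ∀ n, ω n ≤ C) ∧ IsShift (c0e 𝕂) ω T ∧
        DenselyDistChaotic lam T ∧ ∀ mu, 0 < mu → mu < lam → ¬ DistChaotic mu T) := by
  constructor
  · intro p _ hp
    obtain ⟨ω, T, h2, h3, h4, h5, h6⟩ := abstract_main (lpSp 𝕂 p hp) h0 h1
    exact ⟨ω, T, h2, ⟨_, h3⟩, h4, h5, h6⟩
  · obtain ⟨ω, T, h2, h3, h4, h5, h6⟩ := abstract_main (c0Sp 𝕂) h0 h1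
    exact ⟨ω, T, h2, ⟨_, h3⟩, h4, h5, h6⟩

end Pool.Agent.Results.MP_39b2af_an.ChaosExponent
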