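import Pool.Agent.R343.WShift4

set_option autoImplicit false

namespace Pool.Agent.Results.MP_39b2af_an.ExactExponent

open Filter Topology Pool.Agent.R343.WShift
open scoped ENNReal ZeroAtInfty

section builder

variable {𝕜 X : Type*} [RCLike 𝕜] [NormedAddCommGroup X] [NormedSpace 𝕜 X] (Sp : SeqSp 𝕜 X)

lemma c_ext {x y : X} (h : ∀ k, Sp.c k x = Sp.c k y) : x = y := by
  rw [← sub_eq_zero]
  apply Sp.ext
  intro k
  rw [map_sub, h k, sub_self]

/-- a bounded weighted backward shift as an operator on an abstract sequence space -/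
lemma exists_shift (w : ℕ → 𝕜) (C : ℝ) (hC0 : 0 ≤ C) (hC : ∀ k, ‖w k‖ ≤ C)
    (hex : ∀ x : X, ∃ y : X, ∀ k, Sp.c k y = w k * Sp.c (k + 1) x) :
    ∃ T : X →L[𝕜] X, ∀ x k, Sp.c k (T x) = w k * Sp.c (k + 1) x := by
  choose f hf using hex
  let T0 : X →ₗ[𝕜] X :=
    { toFun := f
      map_add' := fun x y => c_ext Sp fun k => by
        rw [map_add, hf, hf, hf, map_add]; ring
      map_smul' := fun a x => c_ext Sp fun k => by
        rw [RingHom.id_apply, map_smul, hf, hf, map_smul, smul_eq_mul, smul_eq_mul]; ring }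
  refine ⟨T0.mkContinuous C (fun x => ?_), fun x k => hf x k⟩
  refine Sp.lat x _ 1 C hC0 (fun k => ?_)
  show ‖Sp.c k (f x)‖ ≤ _
  rw [hf, norm_mul]
  exact mul_le_mul_of_nonneg_right (hC k) (norm_nonneg _)

end builder

section spaces

variable (𝕜 : Type*) [RCLike 𝕜]

/-- the spaces `ℓ^p`, `1 ≤ p < ∞` -/
noncomputable def spLp (p : ℝ≥0∞) [hp : Fact (1 ≤ p)] (htop : p ≠ ⊤) :
    SeqSp 𝕜 (lp (fun _ : ℕ => 𝕜) p) where
  c k :=
    { toFun := fun x => x k
      map_add' := fun _ _ => rfl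
      map_smul' := fun _ _ => rfl }
  norm_c_le k x := lp.norm_apply_le_norm (zero_lt_one.trans_le hp.out).ne' x k
  ext x h := lp.ext (funext h)
  e j := lp.single p j 1
  c_e k j := by
    show (lp.single p j (1 : 𝕜) : ∀ _, 𝕜) k = _
    rw [lp.single_apply]
    by_cases h : k = j
    · subst h; simp
    · rw [if_neg h, Pi.single_eq_of_ne h]
  norm_e j := by
    rw [lp.norm_single (zero_lt_one.trans_le hp.out)]
    simp
  dense := by
    intro x
    have h := lp.hasSum_single htop x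
    refine mem_closure_of_tendsto h (Eventually.of_forall fun s => ?_)
    refine Submodule.sum_mem _ (fun i _ => ?_)
    have e1 : (lp.single p i (x i) : lp (fun _ : ℕ => 𝕜) p) =
        (x i) • (lp.single p i (1 : 𝕜) : lp (fun _ : ℕ => 𝕜) p) := by
      rw [← lp.single_smul, smul_eq_mul, mul_one]
    rw [e1]
    exact Submodule.smul_mem _ _ (Submodule.subset_span ⟨i, rfl⟩)
  lat x y j M hM h := by
    have hp0 : 0 < p.toReal := ENNReal.toReal_pos (zero_lt_one.trans_le hp.out).ne' htop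
    refine lp.norm_le_of_forall_sum_le hp0 (by positivity) (fun s => ?_)
    calc ∑ i ∈ s, ‖y i‖ ^ p.toReal ≤ ∑ i ∈ s, (M * ‖x (i + j)‖) ^ p.toReal :=
          Finset.sum_le_sum fun i _ => Real.rpow_le_rpow (norm_nonneg _) (h i) hp0.le
      _ = M ^ p.toReal * ∑ i ∈ s, ‖x (i + j)‖ ^ p.toReal := by
          rw [Finset.mul_sum]
          exact Finset.sum_congr rfl fun i _ => Real.mul_rpow hM (norm_nonneg _)
      _ = M ^ p.toReal * ∑ i ∈ s.map (addRightEmbedding j), ‖x i‖ ^ p.toReal := by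
          rw [Finset.sum_map]; rfl
      _ ≤ M ^ p.toReal * ‖x‖ ^ p.toReal :=
          mul_le_mul_of_nonneg_left (lp.sum_rpow_le_norm_rpow hp0 x _) (by positivity)
      _ = (M * ‖x‖) ^ p.toReal := (Real.mul_rpow hM (norm_nonneg _)).symm

/-- the space `c_0` -/
noncomputable def spC0 : SeqSp 𝕜 C₀(ℕ, 𝕜) where
  c k :=
    { toFun := fun x => x k
      map_add' := fun _ _ => rfl
      map_smul' := fun _ _ => rfl }
  norm_c_le k x := by
    show ‖x k‖ ≤ ‖x‖
    rw [← ZeroAtInftyContinuousMap.norm_toBCF_eq_norm]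
    exact x.toBCF.norm_coe_le_norm k
  ext x h := ZeroAtInftyContinuousMap.ext h
  e j := ⟨⟨fun k => if k = j then 1 else 0, continuous_of_discreteTopology⟩, by
    rw [Filter.cocompact_eq_cofinite, Nat.cofinite_eq_atTop]
    refine tendsto_const_nhds.congr' ?_
    filter_upwards [eventually_gt_atTop j] with k hk
    show (0 : 𝕜) = if k = j then 1 else 0
    rw [if_neg (by omega)]⟩
  c_e k j := rfl
  norm_e j := by
    rw [← ZeroAtInftyContinuousMap.norm_toBCF_eq_norm]
    refine (BoundedContinuousFunction.norm_le zero_le_one).2 (fun k => ?_)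
    show ‖(if k = j then (1 : 𝕜) else 0)‖ ≤ 1
    split_ifs <;> simp
  dense := by
    intro x
    rw [Metric.mem_closure_iff]
    intro ε hε
    have hx : Tendsto x atTop (𝓝 0) := by
      have := x.zero_at_infty'
      rw [Filter.cocompact_eq_cofinite, Nat.cofinite_eq_atTop] at this
      exact this
    obtain ⟨N, hN⟩ := (Metric.tendsto_atTop.1 hx) (ε / 2) (by positivity)
    set e : ℕ → C₀(ℕ, 𝕜) := fun j => ⟨⟨fun k => if k = j then 1 else 0,
      continuous_of_discreteTopology⟩, by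
      rw [Filter.cocompact_eq_cofinite, Nat.cofinite_eq_atTop]
      refine tendsto_const_nhds.congr' ?_
      filter_upwards [eventually_gt_atTop j] with k hk
      show (0 : 𝕜) = if k = j then 1 else 0
      rw [if_neg (by omega)]⟩ with he
    refine ⟨∑ i ∈ Finset.range N, x i • e i, Submodule.sum_mem _ (fun i _ =>
      Submodule.smul_mem _ _ (Submodule.subset_span ⟨i, rfl⟩)), ?_⟩
    have hval : ∀ k, (∑ i ∈ Finset.range N, x i • e i : C₀(ℕ, 𝕜)) k = if k < N then x k else 0 := by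
      intro k
      let ev : C₀(ℕ, 𝕜) →+ 𝕜 :=
        { toFun := fun f => f k, map_zero' := rfl, map_add' := fun _ _ => rfl }
      have h1 : (∑ i ∈ Finset.range N, x i • e i : C₀(ℕ, 𝕜)) k =
          ∑ i ∈ Finset.range N, (x i • e i) k := map_sum ev _ _
      rw [h1]
      have h2 : ∀ i, (x i • e i) k = if k = i then x i else 0 := by
        intro i
        show x i • (if k = i then (1 : 𝕜) else 0) = _
        split_ifs <;> simp
      simp only [h2]
      rw [Finset.sum_ite_eq]
      simp only [Finset.mem_range]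
    rw [dist_eq_norm, ← ZeroAtInftyContinuousMap.norm_toBCF_eq_norm]
    refine lt_of_le_of_lt ((BoundedContinuousFunction.norm_le (by positivity : 0 ≤ ε / 2)).2
      (fun k => ?_)) (half_lt_self hε)
    show ‖(x - ∑ i ∈ Finset.range N, x i • e i : C₀(ℕ, 𝕜)) k‖ ≤ ε / 2
    rw [ZeroAtInftyContinuousMap.sub_apply, hval]
    split_ifs with hk
    · rw [sub_self, norm_zero]; positivity
    · rw [sub_zero]
      have := hN k (by omega)
      rw [dist_zero_right] at this
      exact this.le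
  lat x y j M hM h := by
    rw [← ZeroAtInftyContinuousMap.norm_toBCF_eq_norm]
    refine (BoundedContinuousFunction.norm_le (by positivity)).2 (fun k => ?_)
    refine (h k).trans (mul_le_mul_of_nonneg_left ?_ hM)
    show ‖x (k + j)‖ ≤ ‖x‖
    rw [← ZeroAtInftyContinuousMap.norm_toBCF_eq_norm]
    exact x.toBCF.norm_coe_le_norm (k + j)

end spaces

/-- `T` is densely `lam`-distributionally chaotic, and not `th`-distributionally chaotic for
any `0 < th < lam`. -/
def ExactExponent {X : Type*} [NormedAddCommGroup X] (lam : ℝ) (T : X → X) : Prop :=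
  DenselyDistChaotic lam T ∧ ∀ th : ℝ, 0 < th → th < lam → ¬ DistChaotic th T

/-- On the normed space `X` of sequences (`c x n` is the value of the sequence `x` at `n`) the
weighted backward shift with weights `ω` is a bounded operator with exact exponent `lam`. -/
def ShiftOn (𝕜 X : Type*) [RCLike 𝕜] [NormedAddCommGroup X] [NormedSpace 𝕜 X]
    (c : X → ℕ → 𝕜) (ω : ℕ → ℝ) (lam : ℝ) : Prop :=
  ∃ T : X →L[𝕜] X, (∀ x n, c (T x) n = (ω (n + 1) : 𝕜) * c x (n + 1)) ∧ ExactExponent lam T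

/-- The statement for every `ℓ^p`, `1 ≤ p < ∞`. -/
def OnLp (𝕜 : Type*) [RCLike 𝕜] (ω : ℕ → ℝ) (lam : ℝ) : Prop :=
  ∀ (p : ℝ≥0∞) [Fact (1 ≤ p)], p ≠ ⊤ →
    ShiftOn 𝕜 (lp (fun _ : ℕ => 𝕜) p) (fun x n => x n) ω lam

/-- The statement for `c_0`. -/
def OnC0 (𝕜 : Type*) [RCLike 𝕜] (ω : ℕ → ℝ) (lam : ℝ) : Prop :=
  ShiftOn 𝕜 C₀(ℕ, 𝕜) (fun x n => x n) ω lam

/-- **Main result.** -/
theorem result (lam : ℝ) (h0 : 0 < lam) (h1 : lam ≤ 1) :
    ∃ ω : ℕ → ℝ, (∀ n, 0 < ω n) ∧ (∃ C : ℝ, ∀ n, ω n ≤ C) ∧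
      ∀ (𝕜 : Type) [RCLike 𝕜], OnLp 𝕜 ω lam ∧ OnC0 𝕜 ω lam := by
  obtain ⟨P⟩ := exists_par lam h0 h1
  have hω : ∀ n, Real.exp (P.L n - P.L (n - 1)) ≤ Real.exp (P.L 1) := by
    intro n
    apply Real.exp_le_exp.2
    rcases n with _ | n
    · have := P.L_nonneg 1
      simpa using this
    · have := P.L_add_le n 1
      simp only [Nat.add_sub_cancel]
      linarith
  refine ⟨fun n => Real.exp (P.L n - P.L (n - 1)), fun n => Real.exp_pos _,
    ⟨Real.exp (P.L 1), hω⟩, ?_⟩
  intro 𝕜 _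
  have hb : ∀ k : ℕ, ‖((Real.exp (P.L (k + 1) - P.L k) : ℝ) : 𝕜)‖ ≤ Real.exp (P.L 1) := by
    intro k
    rw [RCLike.norm_ofReal, abs_of_pos (Real.exp_pos _)]
    exact hω (k + 1)
  constructor
  · intro p hp htop
    have hp0 : 0 < p.toReal := ENNReal.toReal_pos (zero_lt_one.trans_le hp.out).ne' htop
    obtain ⟨T, hT⟩ := exists_shift (spLp 𝕜 p htop)
      (fun k => ((Real.exp (P.L (k + 1) - P.L k) : ℝ) : 𝕜)) (Real.exp (P.L 1))
      (Real.exp_nonneg _) hb (fun x => by
        have hmem : Memℓp (fun k : ℕ => ((Real.exp (P.L (k + 1) - P.L k) : ℝ) : 𝕜) *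
            x (k + 1)) p := by
          refine memℓp_gen' (C := (Real.exp (P.L 1) * ‖x‖) ^ p.toReal) (fun s => ?_)
          calc ∑ i ∈ s, ‖((Real.exp (P.L (i + 1) - P.L i) : ℝ) : 𝕜) * x (i + 1)‖ ^ p.toReal
              ≤ ∑ i ∈ s, (Real.exp (P.L 1) * ‖x (i + 1)‖) ^ p.toReal := by
                refine Finset.sum_le_sum fun i _ => Real.rpow_le_rpow (norm_nonneg _) ?_ hp0.le
                rw [norm_mul]
                exact mul_le_mul_of_nonneg_right (hb i) (norm_nonneg _)
            _ = Real.exp (P.L 1) ^ p.toReal * ∑ i ∈ s, ‖x (i + 1)‖ ^ p.toReal := by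
                rw [Finset.mul_sum]
                exact Finset.sum_congr rfl fun i _ =>
                  Real.mul_rpow (Real.exp_nonneg _) (norm_nonneg _)
            _ = Real.exp (P.L 1) ^ p.toReal *
                  ∑ i ∈ s.map (addRightEmbedding 1), ‖x i‖ ^ p.toReal := by
                rw [Finset.sum_map]; rfl
            _ ≤ Real.exp (P.L 1) ^ p.toReal * ‖x‖ ^ p.toReal :=
                mul_le_mul_of_nonneg_left (lp.sum_rpow_le_norm_rpow hp0 x _) (by positivity)
            _ = (Real.exp (P.L 1) * ‖x‖) ^ p.toReal :=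
                (Real.mul_rpow (Real.exp_nonneg _) (norm_nonneg _)).symm
        exact ⟨⟨_, hmem⟩, fun k => rfl⟩)
    refine ⟨T, fun x n => hT x n, denselyDistChaotic P (spLp 𝕜 p htop) T hT h0 h1, ?_⟩
    intro th ht0 ht1
    exact not_distChaotic P (spLp 𝕜 p htop) T hT ht0 ht1 h1
  · obtain ⟨T, hT⟩ := exists_shift (spC0 𝕜)
      (fun k => ((Real.exp (P.L (k + 1) - P.L k) : ℝ) : 𝕜)) (Real.exp (P.L 1))
      (Real.exp_nonneg _) hb (fun x => by
        have hx : Tendsto x atTop (𝓝 0) := by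
          have := x.zero_at_infty'
          rw [Filter.cocompact_eq_cofinite, Nat.cofinite_eq_atTop] at this
          exact this
        refine ⟨⟨⟨fun k => ((Real.exp (P.L (k + 1) - P.L k) : ℝ) : 𝕜) * x (k + 1),
          continuous_of_discreteTopology⟩, ?_⟩, fun k => rfl⟩
        rw [Filter.cocompact_eq_cofinite, Nat.cofinite_eq_atTop]
        have h2 : Tendsto (fun k => Real.exp (P.L 1) * ‖x (k + 1)‖) atTop (𝓝 0) := by
          have h3 := ((hx.comp (tendsto_add_atTop_nat 1)).norm).const_mul (Real.exp (P.L 1))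
          rw [norm_zero, mul_zero] at h3
          exact h3
        refine squeeze_zero_norm (fun k => ?_) h2
        show ‖((Real.exp (P.L (k + 1) - P.L k) : ℝ) : 𝕜) * x (k + 1)‖ ≤ _
        rw [norm_mul]
        exact mul_le_mul_of_nonneg_right (hb k) (norm_nonneg _))
    refine ⟨T, fun x n => hT x n, denselyDistChaotic P (spC0 𝕜) T hT h0 h1, ?_⟩
    intro th ht0 ht1
    exact not_distChaotic P (spC0 𝕜) T hT ht0 ht1 h1

end Pool.Agent.Results.MP_39b2af_an.ExactExponent
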